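import Pool.Agent.P.MP_b7bea3_al.Any4

open CategoryTheory

namespace Pool.Agent.Results.MP_b7bea3_al.AnyField

open Pool.Agent.P.MP_b7bea3_al

/-- Let `A` be a non-semisimple finite-dimensional algebra over any field which is self-injective
or has a finitely generated injective module `I` with `Ext^i(I, A) ≠ 0` for some `i > 0`.  Then `A`
is `d`-representation-finite for only finitely many `d`. -/
theorem result (k : Type) (A : Type) [Field k] [Ring A] [Algebra k A] [FiniteDimensional k A]
    (hT : (∀ I : ModuleCat.{0} A, Module.Finite A I → Module.Injective A I → ∀ i : ℕ, 0 < i →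
        Subsingleton (@Abelian.Ext (ModuleCat.{0} A) _ _
          (HasExt.standard (ModuleCat.{0} A)) I (ModuleCat.of A A) i)) → Module.Injective A A)
    (hA : ¬ IsSemisimpleRing A) :
    Set.Finite {d : ℕ | 1 ≤ d ∧ ∃ M : ModuleCat.{0} A, Module.Finite A M ∧
      ∀ X : ModuleCat.{0} A, Module.Finite A X →
        (((∃ n : ℕ, ∃ f : X →ₗ[A] (Fin n → (M : Type)),
              ∃ g : (Fin n → (M : Type)) →ₗ[A] X, g ∘ₗ f = LinearMap.id) ↔
            ∀ i : ℕ, 0 < i → i < d →
              Subsingleton (@Abelian.Ext (ModuleCat.{0} A) _ _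
                (HasExt.standard (ModuleCat.{0} A)) M X i)) ∧
         ((∃ n : ℕ, ∃ f : X →ₗ[A] (Fin n → (M : Type)),
              ∃ g : (Fin n → (M : Type)) →ₗ[A] X, g ∘ₗ f = LinearMap.id) ↔
            ∀ i : ℕ, 0 < i → i < d →
              Subsingleton (@Abelian.Ext (ModuleCat.{0} A) _ _
                (HasExt.standard (ModuleCat.{0} A)) X M i)))} := by
  refine (finite_of_tachikawa_any (k := k) hA fun h => hT fun I hI hI' i h0 => ?_).subset ?_
  · have : Module.Injective A (toF k I hI) := hI'
    exact (ed_eq_zero_iff _ _ _).1 (ed_inj_reg h (toF k I hI) i h0)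
  · rintro d ⟨-, M, hM, h⟩
    exact ⟨toF k M hM, ct_toF M hM h⟩

end Pool.Agent.Results.MP_b7bea3_al.AnyField
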